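import Mathlib
import Pool.Agent.W939.SC.Main

/-!
# Sparsest cut and polynomial calculus

For every `C` (up to a constant times `log n`) there are simple graphs of sparsity at least `b` for
which polynomial calculus resolution over every field needs large degree and exponential size to
refute that some balanced cut has sparsity at most `b / C`.
-/

namespace Pool.Agent.Results.MP_9cbceb_lc.PolynomialCalculus

open Finset Pool.Agent.W939.PC Pool.Agent.W939.SSE Pool.Agent.W939.SC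

theorem result :
    (∀ (F : Type) [Field F] (n m s t : ℕ) (ed : Fin m → Fin n × Fin n),
      (∃ x : SVar n m s t → F, ∀ p, SetAx F ed s t p → MvPolynomial.eval x p = 0) ↔
        ∃ S : Finset (Fin n), S.card = s ∧
          (univ.filter (fun i => ¬ ((ed i).1 ∈ S ↔ (ed i).2 ∈ S))).card ≤ t) ∧
    ∃ c : ℕ, ∀ C N : ℕ, 1 ≤ C → Real.exp C ^ c ≤ (N : ℝ) →
      ∃ (K m b : ℕ) (G : SimpleGraph (Fin (K * 2))) (ed : Fin m → Fin (K * 2) × Fin (K * 2)),
        N ≤ K ∧ K ≤ 2 * N ∧ 1 ≤ b ∧ m ≤ (c * C) ^ 2 * K ∧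
        ((∀ x y, G.Adj x y ↔ ∃ i, ed i = (x, y) ∨ ed i = (y, x)) ∧
          ∀ i j, (ed i = ed j ∨ ed i = (ed j).swap) → i = j) ∧
        (∀ S : Finset (Fin (K * 2)), S.Nonempty → S.card ≤ K →
          b * S.card ≤ (univ.filter (fun i => ¬ ((ed i).1 ∈ S ↔ (ed i).2 ∈ S))).card) ∧
        ∀ t : ℕ, b * K ≤ C * t →
        ∀ (F : Type) [Field F] (M : Finset (SVar (K * 2) m K t →₀ ℕ)),
          Derives {p | SetAx F ed K t p} (M : Set (SVar (K * 2) m K t →₀ ℕ)) 1 →
            (∃ x ∈ M, ((K * 2 : ℕ) : ℝ) / Real.exp C ^ c ≤ x.degree) ∧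
              (2 : ℝ) ^ (((K * 2 : ℕ) : ℝ) / Real.exp C ^ c) ≤ M.card :=
  ⟨fun _ _ _ _ _ _ ed => setAx_sat ed, 3000, fun _ _ h1 h2 => main_sc h1 h2⟩

end Pool.Agent.Results.MP_9cbceb_lc.PolynomialCalculus
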